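import Mathlib
import Pool.Agent.Helper83.VF.Swap
import Pool.Agent.Helper83.VF.Main
import Pool.Agent.Helper70.VF.Assembly

/-!
# Voisin's conjecture for the Fermat surfaces

Let `k` be an algebraically closed field of characteristic zero, `m ≥ 1` and `S` the Fermat
surface `x₀ ^ m + x₁ ^ m + x₂ ^ m + x₃ ^ m = 0` in `P³` over `k`, a smooth surface with
`p_g(S) = (m - 1).choose 3` and `q(S) = 0`. For `n > p_g(S)` and zero-cycles `a_1, …, a_n` of
degree zero on `S`, the alternating sum of the exterior products `a_{σ(1)} × ⋯ × a_{σ(n)}` is
torsion in the Chow group of zero-cycles of `S ^ n`.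

Outline of the proof.
* The group `μ_m ^ 4` acts on `S`. It suffices to treat functions `Ψ` on `S ^ n` which vanish
  on the cycles rationally equivalent to zero, are antisymmetric and are eigenfunctions, with
  characters `b_1, …, b_n ∈ (ℤ / m) ^ 4`, of sum zero.
* If `b_i` has a zero entry or two entries of sum zero, then `Ψ` does not depend on the point `i`.
* Let `C` be the Fermat curve of degree `m` and `χ` a character without zero entry. The part of
  the Chow group of zero-cycles of `C × C` with characters `(χ, -χ)` is zero, as the quotient of
  `C × C` by `μ_m ^ 3` is rational; on the part with characters `(χ, χ)` the exchange of the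
  factors is multiplication by `-1`.
* Every point of `S` is in the image of maps `C → S` given by monomials. Hence the exchange of
  the factors is the identity on the part of the Chow group of `S × S` with characters `(b, b)`,
  and the part with characters `(b, d)` is zero if a triple `(b_i, b_j, - b_i - b_j)` is, up to
  order, opposite to such a triple for `d`.
* Among `n > (m - 1).choose 3` characters there are two which are equal or related in this way.
-/

namespace Pool.Agent.Results.MP_83b46e_ag.FermatSurfaces

open VC VF

universe u

theorem result (k : Type u) [Field k] [IsAlgClosed k] [CharZero k] (m : ℕ) [NeZero m] (n : ℕ)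
    (hn : (m - 1).choose 3 < n) (a : Fin n → (fermat k 4 m).Cycles)
    (ha : ∀ i, (a i).sum (fun _ c => c) = 0) :
    ∃ N : ℕ, 0 < N ∧ N • ∑ σ : Equiv.Perm (Fin n), ((Equiv.Perm.sign σ : ℤˣ) : ℤ) •
      extProd (fun i => a (σ i)) ∈ ((fermat k 4 m).pow n).Rat :=
  assembly n a fun _ hE _ _ h =>
    eig_kill hE (fun _ _ hk he hχ => swap_same hE hk he hχ) hn h a ha

end Pool.Agent.Results.MP_83b46e_ag.FermatSurfaces
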