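import Mathlib
import Pool.Agent.Helper9.NS
import Pool.Agent.Helper70.BQ.FinalH
import Pool.Agent.Helper70.VP.Main

/-!
# Voisin's conjecture for quotients of products of two curves

Let `k` be an algebraically closed field of characteristic zero, `C₁`, `C₂` smooth projective curves
over `k`, `V₁`, `V₂` finite groups of automorphisms of `C₁`, `C₂`, `G` an arbitrary subgroup
of `V₁ × V₂` and `S = (C₁ × C₂) / G`. (A resolution of `S` has the same Chow group of zero-cycles
with rational coefficients, and its regular 2-forms are the `G`-invariants of
`H⁰(C₁, K) ⊗ H⁰(C₂, K)`.)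

For a subgroup `W` of `V₁` and a character `χ` of `W`, `C₁ / ker χ → C₁ / W` is a cyclic cover.
Put `γ = g(C₁ / W)`. We attach two numbers to `(W, χ)`:
* `A = α = γ` if `χ = 1`;
* `A = γ - 1 + r - u` and `α = γ - 1 + u`, if the cover has `r > 0` branch points, which can be
  divided into `u` nonempty sets with trivial total monodromy. For example, if the local
  monodromies are pairwise inverse, then `A = α = γ - 1 + r / 2`.
If `h` and `h'` are the multiplicities of `χ` and `χ⁻¹` in `H⁰(C₁, K)`, then `A + α = h + h'`
and `A ≥ max(h, h')`; there is equality if the local monodromies are pairwise inverse, or if `χ`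
has order `3` or `4`, for the maximal `u`.

Now let `(W_l, χ_l)`, `(W'_l, χ'_l)` be a finite family of pairs of characters of subgroups of
`V₁` and `V₂` such that the characteristic function of `G` is a linear combination of the functions
`χ_l(v) χ'_l(v')` on `V₁ × V₂` (extended by zero outside `W_l × W'_l`), averaged over the double
cosets `G x G`. For example, if `V₁ = V₂ = G`, embedded as the diagonal, `W_l = W'_l` and
`χ'_l = χ_l⁻¹`, this says that the regular character of `G` is a linear combination of the
characters induced from the `χ_l`. If `V₁ × V₂` is commutative it suffices to take for the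
`(χ_l, χ'_l)` all characters of `V₁ × V₂` which are trivial on `G`. The characters are arranged
in two families, a family `X` of single characters and a family `Y` of pairs of inverse characters.
Let

`N = ∑_X A A' + ∑_Y (A A' + α α')`.

We prove: for `n > N` and Albanese trivial zero-cycles `a_1, …, a_n` on `S`, the alternating sum
of the exterior products `a_{σ(1)} × ⋯ × a_{σ(n)}` is torsion in the Chow group of zero-cycles
of `S ^ n`.

One always has `N ≥ p_g(S)`. One has `N = p_g(S)`, for example, in the following cases; here `S` is
of general type and `p_g(S)` unbounded for general curves.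
* `S = C₁ × C₂` (the family `X` has one element).
* `V₁`, `V₂` elementary abelian 2-groups with rational quotients `C₁ / V₁`, `C₂ / V₂`, `G`
  arbitrary (the double planes `w² = f(x) g(y)` and multi-double planes).
* `G = V₁ = V₂` a commutative (or monomial) group with rational quotients, such that for every
  non-real irreducible character, induced from `(W, χ)`, the local monodromies of the
  corresponding cyclic cover are pairwise inverse for one of the two curves (the family `Y`; the
  contribution of `χ` and `χ⁻¹` is `A (h + h')`), and for the real ones for both curves. If for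
  example `C₁` has an automorphism which normalizes the commutative group `G` and acts on it by
  inversion, then `C₂` is an arbitrary curve with an action of `G` and rational quotient. Other
  examples are the (generalized) dihedral groups and the groups of isometries of a tetrahedron and
  of a cube. (If `G` is not commutative then the covers `C_i / ker χ → C_i / W` have to be ramified
  for the characters `χ ≠ 1` which occur.)
* `G = V₁ = V₂` commutative of exponent 3 or 4, with rational quotients, if
  `h(C₁, χ) - h(C₁, χ⁻¹)` and `h(C₂, χ) - h(C₂, χ⁻¹)` do not have the same sign, for any `χ`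
  (the family `Y`). For example `w ^ m = f(x) g(y)` with squarefree `f`, `g`, for
  `m = 3, 4` and `6`.

Outline of the proof.
* We consider functions on `(C₁ × C₂) ^ n` which vanish on the cycles rationally equivalent to
  zero and are antisymmetric and `G`-invariant. They are decomposed into components
  which transform under the group `W_l × W'_l` by the character `(χ_l, χ'_l)` in the `i`-th
  variable, `l = c(i)`.
* One-sided vanishing: a function on `C ^ J` which kills rational equivalence, is symmetric
  and on which the group `W` acts by `χ` in each variable, is zero if `J` has at least `A + 1`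
  elements. For this we choose a nonconstant function `t` on `C / W` with poles at most in the
  given points, which is constant on all sets of branch points but one, and takes two values
  there; on the `t`-line, the function pulled back to the Galois closure lives on a cyclic cover
  with two branch points, hence on a rational curve, and vanishes at a branch point.
* The same for a function which is symmetric in two groups of variables, on which the group acts
  by `χ` and by `χ⁻¹`, if there are at least `A + α + 1` variables. Here we choose two functions
  which have the same value in all branch points except one.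
* A combinatorial lemma on the representations of the symmetric group bounds the number of
  variables of each type by the products of the numbers in the one-sided statements.
-/

namespace Pool.Agent.Results.MP_83b46e_ag.ProductQuotients

open VC VQ BQ

universe u

theorem result {k : Type u} [Field k] [IsAlgClosed k] [CharZero k]
    {F₁ F₂ : Type u} [Field F₁] [Algebra k F₁] [Field F₂] [Algebra k F₂]
    (h₁ : IsFunctionField k F₁) (h₂ : IsFunctionField k F₂)
    (V₁ : Subgroup (F₁ ≃ₐ[k] F₁)) (V₂ : Subgroup (F₂ ≃ₐ[k] F₂)) [Finite V₁] [Finite V₂]
    (G : Subgroup (V₁ × V₂)) {Λ Λ' : Type*} [Fintype Λ] [Fintype Λ']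
    (X₁ : Λ → SubChar k V₁) (X₂ : Λ → SubChar k V₂)
    (Y₁ : Λ' → SubChar k V₁) (Y₂ : Λ' → SubChar k V₂) (hdec : Decomposes G X₁ X₂ Y₁ Y₂)
    (A₁ α₁ A₂ α₂ : Λ → ℕ)
    (hX₁ : ∀ l, Kind (X₁ l).act (X₁ l).char (A₁ l) (α₁ l))
    (hX₂ : ∀ l, Kind (X₂ l).act (X₂ l).char (A₂ l) (α₂ l))
    (B₁ β₁ B₂ β₂ : Λ' → ℕ)
    (hY₁ : ∀ l, Kind (Y₁ l).act (Y₁ l).char (B₁ l) (β₁ l))
    (hY₂ : ∀ l, Kind (Y₂ l).act (Y₂ l).char (B₂ l) (β₂ l))
    (n : ℕ) (hn : ∑ l, A₁ l * A₂ l + ∑ l, (B₁ l * B₂ l + β₁ l * β₂ l) < n)
    (a : Fin n → (quotSurface h₁ h₂ V₁ V₂ G).Cycles)
    (ha : ∀ i, AlbaneseTrivial (curve h₁) (curve h₂) (pullCycle h₁ h₂ V₁ V₂ G (a i))) :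
    ∃ m : ℕ, 0 < m ∧ m • ∑ σ : Equiv.Perm (Fin n), ((Equiv.Perm.sign σ : ℤˣ) : ℤ) •
      extProd (fun i => a (σ i)) ∈ ((quotSurface h₁ h₂ V₁ V₂ G).pow n).Rat := by
  have := Fintype.ofFinite V₁
  have := Fintype.ofFinite V₂
  have := Fintype.ofFinite G
  exact VP.descend h₁ h₂ V₁ V₂ G n a (alternatingS h₁ h₂ G X₁ X₂ Y₁ Y₂ hdec A₁ α₁ A₂ α₂ hX₁ hX₂
    B₁ β₁ B₂ β₂ hY₁ hY₂ hn (fun i => pullCycle h₁ h₂ V₁ V₂ G (a i)) ha
    (fun i g => pull_inv h₁ h₂ V₁ V₂ G g.1 g.2 (a i)))

end Pool.Agent.Results.MP_83b46e_ag.ProductQuotients
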